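import Pool.Agent.H26.LV.TargetsAri

/-!
# Row VAL of `ari_modules`: valuations on discs
-/

set_option autoImplicit false

open Finset Polynomial

namespace Pool.Agent.H17.LV

open Pool.Agent.H26.LV

theorem dvd_eval_of_coeff (d : ℤ) (G : ℤ[X]) (t : ℤ) (h : ∀ n, d ∣ G.coeff n) :
    d ∣ G.eval t := by
  rw [Polynomial.eval_eq_sum, Polynomial.sum]
  exact Finset.dvd_sum fun n _ => (h n).mul_right _

theorem dvd_hasse (d : ℤ) (j : ℕ) (G : ℤ[X]) (t : ℤ) (h : ∀ n, j ≤ n → d ∣ G.coeff n) :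
    d ∣ (hasseDeriv j G).eval t := by
  apply dvd_eval_of_coeff
  intro n
  rw [hasseDeriv_coeff]
  exact (h _ (by omega)).mul_left _

theorem dvd_hasse_sub (d : ℤ) (j : ℕ) (G : ℤ[X]) (t : ℤ) (h : ∀ n, j < n → d ∣ G.coeff n) :
    d ∣ (hasseDeriv j G).eval t - G.coeff j := by
  have h0 : (hasseDeriv j G).coeff 0 = G.coeff j := by
    rw [hasseDeriv_coeff, zero_add, Nat.choose_self, Nat.cast_one, one_mul]
  have h1 : (hasseDeriv j G).eval t = (divX (hasseDeriv j G)).eval t * t + G.coeff j := by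
    conv_lhs => rw [← divX_mul_X_add (hasseDeriv j G)]
    rw [eval_add, eval_mul, eval_X, eval_C, h0]
  rw [h1, add_sub_cancel_right]
  refine Dvd.dvd.mul_right (dvd_eval_of_coeff d _ t fun n => ?_) _
  rw [coeff_divX, hasseDeriv_coeff]
  exact (h _ (by omega)).mul_left _

theorem dsc_coeff (p i j : ℕ) (y : ℤ) (F : ℤ[X]) :
    (dsc p i y F).coeff j = (p : ℤ) ^ (i * j) * (hasseDeriv j F).eval y := by
  have h1 : dsc p i y F = (taylor y F).comp (C ((p : ℤ) ^ i) * X) := by
    rw [dsc, taylor_apply, comp_assoc]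
    congr 1
    rw [add_comp, X_comp, C_comp, add_comm]
  rw [h1, comp_C_mul_X_coeff, taylor_coeff, ← pow_mul, mul_comm]

theorem dsc_dsc (p i : ℕ) (y t : ℤ) (F : ℤ[X]) :
    dsc p (i + 1) (y + (p : ℤ) ^ i * t) F = dsc p 1 t (dsc p i y F) := by
  rw [dsc, dsc, dsc, comp_assoc]
  congr 1
  rw [add_comp, C_comp, mul_comp, C_comp, X_comp, mul_add, ← C_mul, ← mul_assoc, ← C_mul, pow_one,
    ← pow_succ, C_add, add_assoc]

theorem pf_VAL : T_VAL := by
  refine ⟨fun p i y t F => dsc_dsc p i y t F, fun p i j y F => dsc_coeff p i j y F, ?_, ?_, ?_, ?_⟩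
  · intro p i y F j hj
    rw [dsc_coeff]
    exact (pow_dvd_pow _ (by nlinarith)).mul_right _
  · intro p v t G hG j hj
    rw [dsc_coeff, one_mul, add_comm v 2, pow_add]
    exact mul_dvd_mul (pow_dvd_pow _ hj) (dvd_hasse _ j G t fun n hn => hG n (by omega))
  · rintro p μ w t G hp hμ ⟨h1, h2, h3⟩
    have hp0 : (p : ℤ) ^ 2 ≠ 0 := pow_ne_zero _ (by exact_mod_cast hp.ne_zero)
    have h4 := dvd_hasse_sub ((p : ℤ) ^ (w + μ)) 2 G t fun n hn => h3 n (by omega)
    refine ⟨?_, ?_, fun j hj => ?_⟩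
    · rw [dsc_coeff, one_mul, add_comm w 2, pow_add]
      refine mul_dvd_mul_left _ ?_
      have h5 := (pow_dvd_pow (p : ℤ) (show w ≤ w + μ by omega)).trans h4
      have h6 := dvd_add h5 h1
      rwa [sub_add_cancel] at h6
    · rw [dsc_coeff, one_mul, show w + 2 + 1 = 2 + (w + 1) by ring, pow_add]
      intro h
      have h5 := (mul_dvd_mul_iff_left hp0).1 h
      have h6 := (pow_dvd_pow (p : ℤ) (show w + 1 ≤ w + μ by omega)).trans h4
      have h7 := dvd_sub h5 h6
      rw [sub_sub_cancel] at h7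
      exact h2 h7
    · rw [dsc_coeff, one_mul]
      have h5 := dvd_hasse ((p : ℤ) ^ (w + μ)) j G t fun n hn => h3 n (by omega)
      have h6 : (p : ℤ) ^ (w + 2 + μ) ∣ (p : ℤ) ^ j * (p : ℤ) ^ (w + μ) := by
        rw [← pow_add]
        exact pow_dvd_pow _ (by omega)
      exact h6.trans (mul_dvd_mul_left _ h5)
  · rintro k p i v y F hp hF ⟨j, hj, hpj⟩ hV
    by_contra hv
    push Not at hv
    apply hpj
    have hpp : (p : ℤ) ≠ 0 := by exact_mod_cast hp.ne_zero
    have h1 : ∀ n, 2 ≤ n → (p : ℤ) ∣ (hasseDeriv n F).eval y := by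
      intro n hn
      by_cases hnk : n ≤ k
      · have h2 := hV n hn
        rw [dsc_coeff] at h2
        have h3 : i * n + 1 ≤ v := by nlinarith
        have h4 : (p : ℤ) ^ (i * n) * p ∣ (p : ℤ) ^ (i * n) * (hasseDeriv n F).eval y := by
          rw [← pow_succ]
          exact (pow_dvd_pow _ h3).trans h2
        exact (mul_dvd_mul_iff_left (pow_ne_zero _ hpp)).1 h4
      · have h2 : hasseDeriv n F = 0 := hasseDeriv_eq_zero_of_lt_natDegree F n (by omega)
        rw [h2, eval_zero]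
        exact dvd_zero _
    have h5 : F = taylor (-y) (taylor y F) := by
      rw [taylor_taylor, neg_add_cancel, taylor_zero]
    rw [h5, taylor_coeff]
    apply dvd_hasse
    intro n hn
    rw [taylor_coeff]
    exact h1 n (by omega)

end Pool.Agent.H17.LV
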